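import Pool.Agent.Q283.SP.Stm

/-! # Project SP (helper283), job BF: Schneider's conjecture at `p` for regular fields -/

set_option autoImplicit false

namespace Pool.Agent.Q285.SP

open NumberField IsDedekindDomain Filter Topology
open Pool.Agent.Q283.SP
open Pool.Agent.Q283.LS (Dec Inr)
open Pool.Agent.Q7.LK (Dp vl Lpw IsPow Cond AT S_BAS S_ATL)

section chi

variable {p : ℕ} [Fact p.Prime] {Ω : Type} [Field Ω] [CharZero Ω]

theorem chi_mul (σ τ : Ω ≃ₐ[ℚ] Ω) : chi p (σ * τ) = chi p σ * chi p τ := by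
  unfold chi
  have h : ((σ * τ : Ω ≃ₐ[ℚ] Ω) : Ω ≃+* Ω) = (σ : Ω ≃+* Ω) * (τ : Ω ≃+* Ω) := rfl
  rw [h, map_mul, Units.val_mul]

theorem chi_cont : Continuous (chi p : (Ω ≃ₐ[ℚ] Ω) → ℤ_[p]) := by
  have h := cyclotomicCharacter.continuous p ℚ Ω
  exact Units.continuous_val.comp h

theorem fix_eq {F : IntermediateField ℚ Ω} {σ : Ω ≃ₐ[ℚ] Ω} (hσ : σ ∈ F.fixingSubgroup) (a : F) :
    σ (a : Ω) = a := by
  rw [IntermediateField.mem_fixingSubgroup_iff] at hσ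
  exact hσ _ a.2

omit [Fact p.Prime] in
theorem prim_coe {F : IntermediateField ℚ Ω} {ζ : F} (hζ : IsPrimitiveRoot ζ p) :
    IsPrimitiveRoot (ζ : Ω) p :=
  hζ.map_of_injective (f := F.val) F.val.injective

theorem chi_dvd [IsAlgClosed Ω] {F : IntermediateField ℚ Ω} {ζ : F} (hζ : IsPrimitiveRoot ζ p) {σ : Ω ≃ₐ[ℚ] Ω}
    (hσ : σ ∈ F.fixingSubgroup) : (p : ℤ_[p]) ∣ chi p σ - 1 := by
  have hp : 1 < p := (Fact.out : p.Prime).one_lt
  have hζ' := prim_coe hζ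
  have h1 : (ζ : Ω) ^ p ^ 1 = 1 := by rw [pow_one]; exact hζ'.pow_eq_one
  have hs := cyclotomicCharacter.spec (L := Ω) p (n := 1) (σ : Ω ≃+* Ω) (ζ : Ω) h1
  have hs' : σ (ζ : Ω) = (ζ : Ω) ^ ((PadicInt.toZModPow 1 (chi p σ)).val) := hs
  rw [fix_eq hσ] at hs'
  have hlt : (PadicInt.toZModPow 1 (chi p σ)).val < p :=
    lt_of_lt_of_eq (ZMod.val_lt (PadicInt.toZModPow 1 (chi p σ))) (pow_one p)
  have h2 : 1 = (PadicInt.toZModPow 1 (chi p σ)).val :=
    hζ'.pow_inj hp hlt (by rw [pow_one]; exact hs')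
  have hker : ∀ x : ℤ_[p], PadicInt.toZModPow 1 x = 0 → (p : ℤ_[p]) ∣ x := by
    intro x hx
    have h1 : x ∈ RingHom.ker (PadicInt.toZModPow (p := p) 1) := hx
    rw [PadicInt.ker_toZModPow, Ideal.mem_span_singleton, pow_one] at h1
    exact h1
  apply hker
  rw [map_sub, map_one, sub_eq_zero]
  have hp1 : 1 < p ^ 1 := by rwa [pow_one]
  have : Fact (1 < p ^ 1) := ⟨hp1⟩
  apply ZMod.val_injective
  rw [← h2, ZMod.val_one]

theorem rho_dvd [IsAlgClosed Ω] {F : IntermediateField ℚ Ω} {ζ : F} (hζ : IsPrimitiveRoot ζ p) {σ : Ω ≃ₐ[ℚ] Ω}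
    (hσ : σ ∈ F.fixingSubgroup) (r : ℕ) : (p : ℤ_[p]) ∣ chi p σ ^ r - 1 := by
  have h := sub_dvd_pow_sub_pow (chi p σ) 1 r
  rw [one_pow] at h
  exact (chi_dvd hζ hσ).trans h

theorem cont_of_pow {X : Type} [TopologicalSpace X] {w : X → ℤ_[p]} (m : ℕ)
    (h : Continuous fun x => (p : ℤ_[p]) ^ m * w x) : Continuous w := by
  have hp0 : (p : ℤ_[p]) ≠ 0 := by exact_mod_cast (Fact.out : p.Prime).ne_zero
  have h1 : Topology.IsClosedEmbedding (fun x : ℤ_[p] => (p : ℤ_[p]) ^ m * x) := by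
    refine Continuous.isClosedEmbedding (by fun_prop) ?_
    intro a b hab
    exact mul_left_cancel₀ (pow_ne_zero m hp0) hab
  exact h1.isEmbedding.continuous_iff.2 h

theorem zmod_zero_iff (x : ℤ_[p]) : PadicInt.toZMod x = 0 ↔ (p : ℤ_[p]) ∣ x := by
  have h : PadicInt.toZMod x = 0 ↔ x ∈ RingHom.ker (PadicInt.toZMod (p := p)) := Iff.rfl
  rw [h, PadicInt.ker_toZMod, PadicInt.maximalIdeal_eq_span_p, Ideal.mem_span_singleton]

theorem lc_toZMod {X : Type} [TopologicalSpace X] {w : X → ℤ_[p]} (hw : Continuous w) :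
    IsLocallyConstant fun x => PadicInt.toZMod (w x) := by
  rw [IsLocallyConstant.iff_exists_open]
  intro x
  refine ⟨{y | ‖w y - w x‖ < 1}, isOpen_lt (hw.sub continuous_const).norm continuous_const, ?_, ?_⟩
  · show ‖w x - w x‖ < 1
    rw [sub_self, norm_zero]
    exact one_pos
  · intro y hy
    have h1 : (p : ℤ_[p]) ∣ w y - w x := (PadicInt.norm_lt_one_iff_dvd _).1 hy
    rw [← zmod_zero_iff, map_sub, sub_eq_zero] at h1
    exact h1

theorem p_pow_bound {x : ℤ_[p]} (hx : x ≠ 0) : ∃ n : ℕ, ¬ (p : ℤ_[p]) ^ n ∣ x := by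
  refine ⟨x.valuation + 1, ?_⟩
  intro h
  have h1 := (PadicInt.mem_span_pow_iff_le_valuation x hx (x.valuation + 1)).1 (by
    rw [Ideal.mem_span_singleton]
    exact h)
  omega

/-- division of a family of `p`-adic integers by the largest common power of `p` -/
theorem exists_div {X : Type} (w : X → ℤ_[p]) (x0 : X) (h0 : w x0 ≠ 0) :
    ∃ (h : ℕ) (b : X → ℤ_[p]), (∀ x, w x = (p : ℤ_[p]) ^ h * b x) ∧ ∃ x, ¬ (p : ℤ_[p]) ∣ b x := by
  classical
  have hex : ∃ n : ℕ, ∃ x, ¬ (p : ℤ_[p]) ^ n ∣ w x := by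
    obtain ⟨n, hn⟩ := p_pow_bound h0
    exact ⟨n, x0, hn⟩
  obtain ⟨n, hn⟩ : ∃ n, n = Nat.find hex := ⟨_, rfl⟩
  have hspec := Nat.find_spec hex
  rw [← hn] at hspec
  have hn0 : n ≠ 0 := by
    intro h
    rw [h] at hspec
    obtain ⟨x, hx⟩ := hspec
    simp at hx
  obtain ⟨h, rfl⟩ := Nat.exists_eq_succ_of_ne_zero hn0
  have hmin : ∀ x, (p : ℤ_[p]) ^ h ∣ w x := by
    intro x
    by_contra hcon
    exact Nat.find_min hex (m := h) (by rw [← hn]; exact Nat.lt_succ_self h) ⟨x, hcon⟩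
  choose b hb using hmin
  refine ⟨h, b, hb, ?_⟩
  obtain ⟨x, hx⟩ := hspec
  refine ⟨x, fun hd => hx ?_⟩
  rw [hb x, pow_succ]
  exact mul_dvd_mul_left _ hd

end chi

section sel

variable {p : ℕ} [Fact p.Prime] {Ω : Type} [Field Ω] [CharZero Ω]

/-- continuous cocycles of finite order on all decomposition groups -/
def Sel {H : Subgroup (Ω ≃ₐ[ℚ] Ω)} (ρ : H → ℤ_[p]) : Submodule ℤ_[p] (H → ℤ_[p]) where
  carrier := {f | IsCoc ρ f ∧ ∀ (l : ℕ) [Fact l.Prime] (j : Ω →+* PadicAlgCl l), ∃ n b : ℤ_[p], n ≠ 0 ∧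
    ∀ σ : H, Dec j σ.1 → n * f σ = (ρ σ - 1) * b}
  add_mem' := by
    rintro f g ⟨hf, hf'⟩ ⟨hg, hg'⟩
    refine ⟨⟨hf.cont.add hg.cont, fun σ τ => ?_⟩, fun l _ j => ?_⟩
    · simp only [Pi.add_apply]
      rw [hf.coc, hg.coc]
      ring
    · obtain ⟨n, b, hn, h⟩ := hf' l j
      obtain ⟨n', b', hn', h'⟩ := hg' l j
      refine ⟨n * n', n' * b + n * b', mul_ne_zero hn hn', fun σ hσ => ?_⟩
      simp only [Pi.add_apply]
      linear_combination n' * h σ hσ + n * h' σ hσ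
  zero_mem' := ⟨⟨continuous_const, fun σ τ => by simp⟩, fun l _ j => ⟨1, 0, one_ne_zero, fun σ _ => by simp⟩⟩
  smul_mem' := by
    rintro c f ⟨hf, hf'⟩
    refine ⟨⟨hf.cont.const_smul c, fun σ τ => ?_⟩, fun l _ j => ?_⟩
    · simp only [Pi.smul_apply, smul_eq_mul]
      rw [hf.coc]
      ring
    · obtain ⟨n, b, hn, h⟩ := hf' l j
      refine ⟨n, c * b, hn, fun σ hσ => ?_⟩
      simp only [Pi.smul_apply, smul_eq_mul]
      linear_combination c * h σ hσ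

theorem sel_sat {H : Subgroup (Ω ≃ₐ[ℚ] Ω)} {ρ f : H → ℤ_[p]} (m : ℕ)
    (h : (fun σ => (p : ℤ_[p]) ^ m * f σ) ∈ Sel ρ) : f ∈ Sel ρ := by
  have hp0 : (p : ℤ_[p]) ≠ 0 := by exact_mod_cast (Fact.out : p.Prime).ne_zero
  have hpm : (p : ℤ_[p]) ^ m ≠ 0 := pow_ne_zero m hp0
  obtain ⟨h1, h2⟩ := h
  refine ⟨⟨cont_of_pow m h1.cont, fun σ τ => ?_⟩, fun l _ j => ?_⟩
  · apply mul_left_cancel₀ hpm
    rw [h1.coc σ τ]
    ring
  · obtain ⟨n, b, hn, h⟩ := h2 l j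
    refine ⟨n * (p : ℤ_[p]) ^ m, b, mul_ne_zero hn hpm, fun σ hσ => ?_⟩
    rw [← h σ hσ]
    ring

/-- the vector `e_0 - e_1` -/
noncomputable def E1 (p : ℕ) [Fact p.Prime] : ZMod p → ℤ_[p] := fun i => (if i = 0 then 1 else 0) - if i = 1 then 1 else 0

theorem E1_sum : ∑ i, E1 p i = 0 := by
  unfold E1
  rw [Finset.sum_sub_distrib]
  simp

theorem lam_E1 (c : ℤ_[p]) : lam (c • E1 p) = -PadicInt.toZMod c := by
  unfold lam E1
  simp only [Pi.smul_apply, smul_eq_mul, map_mul, map_sub]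
  have h : ∀ i : ZMod p, i * (PadicInt.toZMod c * (PadicInt.toZMod (if i = 0 then (1 : ℤ_[p]) else 0) -
      PadicInt.toZMod (if i = 1 then (1 : ℤ_[p]) else 0))) = if i = 1 then -PadicInt.toZMod c else 0 := by
    intro i
    by_cases h0 : i = 0
    · subst h0
      have : (0 : ZMod p) ≠ 1 := zero_ne_one
      simp [this]
    · by_cases h1 : i = 1
      · subst h1
        simp
      · simp [h0, h1]
  rw [Finset.sum_congr rfl fun i _ => h i, Finset.sum_ite_eq']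
  simp

theorem ex_one {ζ : Ω} (hζ : IsPrimitiveRoot ζ p) (σ : Ω ≃ₐ[ℚ] Ω) : ex (p := p) ζ 1 σ = 0 := by
  unfold ex
  split_ifs with h
  · have h1 := h.choose_spec
    set s := h.choose with hs
    rw [map_one, mul_one] at h1
    have h2 : s.val = 0 := by
      have h3 := (hζ.pow_eq_one_iff_dvd s.val).1 h1.symm
      exact Nat.eq_zero_of_dvd_of_lt h3 (ZMod.val_lt s)
    exact (ZMod.val_eq_zero s).1 h2
  · rfl

theorem act_one {H : Subgroup (Ω ≃ₐ[ℚ] Ω)} (ρ : H → ℤ_[p]) {ζ : Ω} (hζ : IsPrimitiveRoot ζ p) (σ : H)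
    (m : ZMod p → ℤ_[p]) : act ρ (fun σ => ex ζ 1 σ.1) σ m = ρ σ • m := by
  show ρ σ • sh (ex ζ 1 σ.1) m = ρ σ • m
  rw [ex_one hζ]
  congr 1
  funext i
  unfold sh
  rw [sub_zero]

theorem inSelV {H : Subgroup (Ω ≃ₐ[ℚ] Ω)} {ρ w : H → ℤ_[p]} (hw : w ∈ Sel ρ) {ζ : Ω}
    (hζ : IsPrimitiveRoot ζ p) : InSelV ρ (fun σ => ex ζ 1 σ.1) (fun σ => w σ • E1 p) := by
  obtain ⟨h1, h2⟩ := hw
  refine ⟨⟨h1.cont.smul continuous_const, fun σ τ => ?_⟩, fun σ => ?_, fun l _ j => ?_⟩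
  · rw [act_one ρ hζ, h1.coc, add_smul, mul_smul]
  · simp only [Pi.smul_apply, smul_eq_mul]
    rw [← Finset.mul_sum, E1_sum, mul_zero]
  · obtain ⟨n, b, hn, h⟩ := h2 l j
    refine ⟨n, b • E1 p, hn, ?_, fun σ hσ => ?_⟩
    · simp only [Pi.smul_apply, smul_eq_mul]
      rw [← Finset.mul_sum, E1_sum, mul_zero]
    · rw [act_one ρ hζ, ← mul_smul, h σ hσ, ← mul_smul, ← sub_smul]
      congr 1
      ring

end sel

theorem bf (hCON : S_CON) (hSAT1 : S_SAT1) (hKUM : S_KUM) (hLT : S_LT) (hNT : S_NT) (hREGC : S_REGC)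
    (hBAS : S_BAS) (hATL : S_ATL) : S_BF := by
  classical
  intro p _ hp2 Ω _ _ _ _ F _ ζ hζ hcl hone S r hpS hr hR
  obtain ⟨f, hfS, hfI⟩ := hR
  have hpr : p.Prime := Fact.out
  have hp0 : (p : ℤ_[p]) ≠ 0 := by exact_mod_cast hpr.ne_zero
  have hζ' := prim_coe hζ
  set ρ : F.fixingSubgroup → ℤ_[p] := fun σ => chi p σ.1 ^ r with hρ
  have hρm : ∀ σ τ, ρ (σ * τ) = ρ σ * ρ τ := by
    intro σ τ
    simp only [hρ]
    change chi p (σ.1 * τ.1) ^ r = _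
    rw [chi_mul, mul_pow]
  have hρc : Continuous ρ := (chi_cont.comp continuous_subtype_val).pow r
  have hρd : ∀ σ, (p : ℤ_[p]) ∣ ρ σ - 1 := fun σ => rho_dvd hζ σ.2 r
  have hρ1 : ∀ σ, PadicInt.toZMod (ρ σ) = 1 := by
    intro σ
    have h := (zmod_zero_iff _).2 (hρd σ)
    rw [map_sub, map_one, sub_eq_zero] at h
    exact h
  -- an embedding
  obtain ⟨j⟩ : Nonempty (Ω →ₐ[ℚ] PadicAlgCl p) := ⟨IsAlgClosed.lift⟩
  obtain ⟨σ0, hσ0F, _, hσ0⟩ := hNT p Ω F p j.toRingHom r hr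
  obtain ⟨h, b0, hb0, hodd⟩ := exists_div (fun σ => ρ σ - 1) (⟨σ0, hσ0F⟩ : F.fixingSubgroup)
    (sub_ne_zero.2 hσ0)
  have hb0' : ∀ σ, ρ σ - 1 = (p : ℤ_[p]) ^ h * b0 σ := hb0
  have hph : ((p : ℤ_[p]) ^ h) ≠ 0 := pow_ne_zero h hp0
  have hfsel : f 0 ∈ Sel ρ := by
    refine ⟨(hfS 0).coc, ?_⟩
    intro l _ j
    by_cases hl : l ∈ S
    · obtain ⟨b, hb⟩ := (hfS 0).loc l hl j
      exact ⟨1, b, one_ne_zero, fun σ hσ => by rw [one_mul]; exact hb σ hσ⟩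
    · exact hLT p Ω F l j r hr (f 0) (hfS 0).coc (fun σ hσ => (hfS 0).unr l hl j σ hσ)
  have hρsel : (fun σ => ρ σ - 1) ∈ Sel ρ := by
    refine ⟨⟨hρc.sub continuous_const, ?_⟩, ?_⟩
    · intro σ τ
      rw [hρm]
      ring
    · intro l _ j
      exact ⟨1, 1, one_ne_zero, fun σ _ => by ring⟩
  have hb0sel : b0 ∈ Sel ρ := by
    refine sel_sat h ?_
    have e1 : (fun σ => (p : ℤ_[p]) ^ h * b0 σ) = fun σ => ρ σ - 1 := by
      funext σ
      exact (hb0' σ).symm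
    rw [e1]
    exact hρsel
  have hli : ∀ e a : ℤ_[p], (∀ x, e * b0 x + a * f 0 x = 0) → a = 0 := by
    intro e a hea
    have h1 : (fun _ : Fin 1 => (p : ℤ_[p]) ^ h * a) = 0 := by
      refine hfI _ ⟨-e, fun σ => ?_⟩
      rw [Fin.sum_univ_one]
      rw [hb0' σ]
      linear_combination (p : ℤ_[p]) ^ h * hea σ
    have h2 := congrFun h1 0
    exact (mul_eq_zero.1 h2).resolve_left hph
  obtain ⟨b1, m, e, a, hb1, hind⟩ := hSAT1 p F.fixingSubgroup b0 (f 0) hli hodd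
  have hb1sel : b1 ∈ Sel ρ := by
    refine sel_sat m ?_
    have e1 : (fun σ => (p : ℤ_[p]) ^ m * b1 σ) = e • b0 + a • f 0 := by
      funext σ
      exact hb1 σ
    rw [e1]
    exact (Sel ρ).add_mem ((Sel ρ).smul_mem _ hb0sel) ((Sel ρ).smul_mem _ hfsel)
  -- Kummer characters
  have hq : ∀ w : F.fixingSubgroup → ℤ_[p], w ∈ Sel ρ → ∃ (a : F) (y : Ω), a ≠ 0 ∧ y ^ p = (a : Ω) ∧
      Cond p (AT p) 1 a ∧ ∀ σ : F.fixingSubgroup, σ.1 y = (ζ : Ω) ^ (-PadicInt.toZMod (w σ)).val * y := by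
    intro w hw
    have hV := inSelV hw hζ'
    obtain ⟨a, y, ha, hy, hay⟩ := hKUM p Ω F ζ hζ (fun σ => -PadicInt.toZMod (w σ))
      ((lc_toZMod hw.1.cont).comp (fun z : ZMod p => -z)) (by
        intro σ τ
        rw [hw.1.coc σ τ, map_add, map_mul, hρ1]
        ring)
    refine ⟨a, y, ha, hy, ?_, hay⟩
    refine hCON p hp2 Ω F ζ hζ r 1 1 hr one_ne_zero (by simp) (fun σ => w σ • E1 p) hV a y ha hy ?_
    intro σ
    rw [lam_E1]
    exact hay σ
  have hw : ∀ c : ZMod p × ZMod p, ((c.1.val : ℤ_[p]) • b0 + (c.2.val : ℤ_[p]) • b1) ∈ Sel ρ := fun c =>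
    (Sel ρ).add_mem ((Sel ρ).smul_mem _ hb0sel) ((Sel ρ).smul_mem _ hb1sel)
  choose A Y hA0 hYA hCd hAY using fun c : ZMod p × ZMod p => hq _ (hw c)
  have hval : ∀ (c : ZMod p × ZMod p) (σ : F.fixingSubgroup),
      PadicInt.toZMod (((c.1.val : ℤ_[p]) • b0 + (c.2.val : ℤ_[p]) • b1) σ) =
        c.1 * PadicInt.toZMod (b0 σ) + c.2 * PadicInt.toZMod (b1 σ) := by
    intro c σ
    simp only [Pi.add_apply, Pi.smul_apply, smul_eq_mul, map_add, map_mul, map_natCast,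
      ZMod.natCast_zmod_val]
  have hnot : ∀ c c' : ZMod p × ZMod p, IsPow p (A c / A c') → c = c' := by
    rintro c c' ⟨u, hu⟩
    have hu0 : u ≠ 0 := by
      rintro rfl
      rw [zero_pow hpr.ne_zero] at hu
      exact div_ne_zero (hA0 c) (hA0 c') hu
    have hu0' : (u : Ω) ≠ 0 := by exact_mod_cast hu0
    have hY0 : ∀ c, Y c ≠ 0 := by
      intro c h0
      have h1 := hYA c
      rw [h0, zero_pow hpr.ne_zero] at h1
      exact hA0 c (by exact_mod_cast h1.symm)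
    have hAc : (A c : Ω) = (u : Ω) ^ p * (A c' : Ω) := by
      have h1 : A c = u ^ p * A c' := by
        rw [← hu, div_mul_cancel₀ _ (hA0 c')]
      rw [h1]
      push_cast
      rfl
    have h1 : (Y c / (u * Y c')) ^ p = 1 := by
      rw [div_pow, mul_pow, hYA, hYA, hAc]
      exact div_self (mul_ne_zero (pow_ne_zero _ hu0') (by exact_mod_cast hA0 c'))
    obtain ⟨k, -, hk⟩ := hζ'.eq_pow_of_pow_eq_one h1
    have hk' : Y c = (ζ : Ω) ^ k * (u * Y c') := by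
      rw [hk, div_mul_cancel₀ _ (mul_ne_zero hu0' (hY0 c'))]
    have h2 : ∀ σ : F.fixingSubgroup, -PadicInt.toZMod (((c.1.val : ℤ_[p]) • b0 + (c.2.val : ℤ_[p]) • b1) σ) =
        -PadicInt.toZMod (((c'.1.val : ℤ_[p]) • b0 + (c'.2.val : ℤ_[p]) • b1) σ) := by
      intro σ
      have h3 := hAY c σ
      have h4 : σ.1 (Y c) = (ζ : Ω) ^ k * (u * σ.1 (Y c')) := by
        conv_lhs => rw [hk']
        rw [map_mul, map_mul, map_pow, fix_eq σ.2, fix_eq σ.2]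
      rw [h4, hAY c' σ] at h3
      conv_rhs at h3 => rw [hk']
      have hne : (ζ : Ω) ^ k * (u * Y c') ≠ 0 := by
        rw [← hk']
        exact hY0 c
      have h5 : (ζ : Ω) ^ (-PadicInt.toZMod (((c'.1.val : ℤ_[p]) • b0 + (c'.2.val : ℤ_[p]) • b1) σ)).val =
          (ζ : Ω) ^ (-PadicInt.toZMod (((c.1.val : ℤ_[p]) • b0 + (c.2.val : ℤ_[p]) • b1) σ)).val := by
        apply mul_right_cancel₀ hne
        rw [← h3]
        ring
      exact (ZMod.val_injective _ (hζ'.pow_inj (ZMod.val_lt _) (ZMod.val_lt _) h5)).symm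
    obtain ⟨e1, e2⟩ := hind (c.1 - c'.1) (c.2 - c'.2) (by
      intro σ
      have h3 := h2 σ
      rw [hval, hval, neg_inj] at h3
      linear_combination h3)
    exact Prod.ext (sub_eq_zero.1 e1) (sub_eq_zero.1 e2)
  -- two classes with a local power as quotient
  have hfin : ∀ c c' : ZMod p × ZMod p, c ≠ c' →
      (∀ v : HeightOneSpectrum (𝓞 F), Dp p v → Lpw p v (A c / A c')) → False := by
    intro c c' hcc hL
    refine hcc (hnot c c' (hREGC p hp2 F ζ hζ hcl (A c / A c') (div_ne_zero (hA0 c) (hA0 c')) ?_ hL))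
    intro v hv
    have h1v : vl p v (1 : F) = 0 := by simp [vl]
    have e1 := (hCd c).unr v hv h1v
    have e2 := (hCd c').unr v hv h1v
    have e3 := (hBAS p F v).2.2.2.2.1 (A c / A c') (A c') (div_ne_zero (hA0 c) (hA0 c')) (hA0 c')
    rw [div_mul_cancel₀ _ (hA0 c'), e1, e2, add_zero] at e3
    exact e3.symm
  by_cases hex : ∃ v0 : HeightOneSpectrum (𝓞 F), Dp p v0
  · obtain ⟨v0, hv0⟩ := hex
    have hinj : Function.Injective A := by
      intro c c' hcc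
      apply hnot
      refine ⟨1, ?_⟩
      rw [hcc, div_self (hA0 c'), one_pow]
    have hcard : (Finset.univ.image A).card = p ^ 2 := by
      rw [Finset.card_image_of_injective _ hinj, Finset.card_univ, Fintype.card_prod, ZMod.card, sq]
    have hlt : ¬ (Finset.univ.image A).card ≤ p ^ (0 + 1) := by
      rw [hcard, zero_add, pow_one, not_le]
      have := hpr.one_lt
      nlinarith
    apply hlt
    refine (hATL p hp2 F ζ hζ).num v0 1 hv0 one_ne_zero _ ?_ ?_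
    · intro b hb
      obtain ⟨c, -, rfl⟩ := Finset.mem_image.1 hb
      exact (hCd c).abv v0 hv0
    · intro b hb b' hb' hbb hL
      obtain ⟨c, -, rfl⟩ := Finset.mem_image.1 hb
      obtain ⟨c', -, rfl⟩ := Finset.mem_image.1 hb'
      refine hfin c c' (fun h => hbb (by rw [h])) ?_
      intro v hv
      rw [hone v v0 hv hv0]
      exact hL
  · refine hfin (0, 0) (1, 0) ?_ (fun v hv => absurd ⟨v, hv⟩ hex)
    intro h
    have := congrArg Prod.fst h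
    exact zero_ne_one this

end Pool.Agent.Q285.SP
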